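import Mathlib
import Pool.Agent.SAWL.MAINC

set_option autoImplicit false

/-!
# Self-avoiding loops versus self-avoiding walks (MP_69df71_pr)

For a connected, locally finite, vertex-transitive graph of degree `d`, let `0 < lam ≤ d - 2 √d`. If every
finite set `S` has at least `√(d² - lam²) |S|` boundary edges, or if the number of closed walks of length `n`
grows at most like `lam ^ n` (the spectral radius of simple random walk is at most `lam / d`), then there are
at most `d lam ^ n` self-avoiding loops of length `n + 2` and at least `((d + lam) / 2) ^ n` self-avoiding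
walks of length `n`.
-/

namespace Pool.Agent.Results.MP_69df71_pr.LargeDegree

theorem result (V : Type) (G : SimpleGraph V) (_hc : G.Connected)
    (hfin : ∀ v : V, (G.neighborSet v).Finite)
    (htr : ∀ v w : V, ∃ φ : G ≃g G, φ v = w)
    (d : ℕ) (hd : ∀ v : V, (G.neighborSet v).ncard = d)
    (lam : ℝ) (hlam : 0 < lam) (hdl : lam ≤ (d : ℝ) - 2 * Real.sqrt d)
    (H : (∀ S : Finset V, S.Nonempty →
          Real.sqrt ((d : ℝ) ^ 2 - lam ^ 2) * (S.card : ℝ) ≤
            ((({p : V × V | p.1 ∈ S ∧ p.2 ∉ S ∧ G.Adj p.1 p.2} : Set (V × V)).ncard : ℕ) : ℝ)) ∨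
      (∀ v : V, ∀ ε : ℝ, 0 < ε → ∀ᶠ n : ℕ in Filter.atTop,
          ((({p : G.Walk v v | p.length = n} : Set (G.Walk v v)).ncard : ℕ) : ℝ) ≤ (lam + ε) ^ n))
    (v : V) (n : ℕ) :
    ((({c : G.Walk v v | c.IsCycle ∧ c.length = n + 2} : Set (G.Walk v v)).ncard : ℕ) : ℝ)
        ≤ d * lam ^ n ∧
      (((d : ℝ) + lam) / 2) ^ n ≤
        ((({p : Σ w : V, G.Walk v w | p.2.IsPath ∧ p.2.length = n} :
          Set (Σ w : V, G.Walk v w)).ncard : ℕ) : ℝ) :=
  SAWL.mainC G hfin htr d hd lam hlam hdl H v n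

end Pool.Agent.Results.MP_69df71_pr.LargeDegree
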